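import Mathlib
import Pool.Agent.H854R3.CR.Stmts

/-!
Task W of the project H854-CR.
-/

set_option autoImplicit false

namespace Pool.Agent.H20R3.CRW

open Pool.Agent.H854R3.NE Pool.Agent.H854R3.CR

/-- A nonzero finitely generated left ideal has a simple quotient. -/
theorem exists_simple {A : Type} [Ring A] (J : Submodule A A) (hfg : J.FG) (hne : J ≠ ⊥) :
    ∃ (M : Type) (_ : AddCommGroup M) (_ : Module A M) (π : A → M),
      IsSimpleModule A M ∧ (∀ m : M, ∃ x ∈ J, π x = m) ∧
      (∀ x ∈ J, ∀ y ∈ J, π (x + y) = π x + π y) ∧ (∀ a : A, ∀ x ∈ J, π (a * x) = a • π x) := by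
  classical
  have hfin : Module.Finite A J := Module.Finite.iff_fg.mpr hfg
  have hco : IsCoatomic (Submodule A J) := inferInstance
  have hbt : (⊥ : Submodule A J) ≠ ⊤ := by
    intro h
    apply hne
    rw [eq_bot_iff]
    intro x hx
    have h1 : (⟨x, hx⟩ : J) ∈ (⊥ : Submodule A J) := by rw [h]; trivial
    rw [Submodule.mem_bot] at h1
    rw [Submodule.mem_bot]
    exact congrArg Subtype.val h1
  obtain ⟨L, hL, -⟩ := (hco.eq_top_or_exists_le_coatom ⊥).resolve_left hbt
  refine ⟨J ⧸ L, inferInstance, inferInstance,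
    fun x => if h : x ∈ J then Submodule.Quotient.mk ⟨x, h⟩ else 0,
    isSimpleModule_iff_isCoatom.mpr hL, ?_, ?_, ?_⟩
  · intro m
    obtain ⟨⟨x, hx⟩, rfl⟩ := Submodule.Quotient.mk_surjective L m
    exact ⟨x, hx, by simp [hx]⟩
  · intro x hx y hy
    simp only [hx, hy, J.add_mem hx hy, dif_pos]
    rfl
  · intro a x hx
    have : a * x ∈ J := J.smul_mem a hx
    simp only [hx, this, dif_pos]
    rfl

section
variable (R : Type) [NonUnitalRing R]

/-- The ring as a left ideal of its unitization. -/
def J : Submodule (Unitization ℤ R) (Unitization ℤ R) where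
  carrier := Set.range (Unitization.inr : R → Unitization ℤ R)
  add_mem' := by
    rintro _ _ ⟨x, rfl⟩ ⟨y, rfl⟩
    exact ⟨x + y, by simp⟩
  zero_mem' := ⟨0, by simp⟩
  smul_mem' := by
    rintro a _ ⟨x, rfl⟩
    refine ⟨a.fst • x + a.snd * x, ?_⟩
    rw [smul_eq_mul]
    apply Unitization.ext
    · rw [Unitization.fst_inr, Unitization.fst_mul, Unitization.fst_inr, mul_zero]
    · rw [Unitization.snd_inr, Unitization.snd_mul, Unitization.fst_inr, Unitization.snd_inr,
        zero_smul, add_zero]

theorem mem_J (x : R) : (x : Unitization ℤ R) ∈ J R := ⟨x, rfl⟩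

theorem J_fg (h : FGen R) : (J R).FG := by
  obtain ⟨S, hS, hc⟩ := h
  refine ⟨(hS.image (Unitization.inr : R → Unitization ℤ R)).toFinset, ?_⟩
  rw [Set.Finite.coe_toFinset]
  apply le_antisymm
  · rw [Submodule.span_le]
    rintro _ ⟨x, _, rfl⟩
    exact mem_J R x
  · rintro _ ⟨x, rfl⟩
    have hx : x ∈ NonUnitalSubring.closure S := by rw [hc]; trivial
    induction hx using NonUnitalSubring.closure_induction with
    | mem x hx => exact Submodule.subset_span ⟨x, hx, rfl⟩
    | zero => simp
    | add x y _ _ h1 h2 => simpa using Submodule.add_mem _ h1 h2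
    | neg x _ h1 =>
      have := Submodule.smul_mem _ (-1 : Unitization ℤ R) h1
      rw [smul_eq_mul, neg_one_mul] at this
      rw [Unitization.inr_neg]
      exact this
    | mul x y _ _ h1 h2 =>
      have := Submodule.smul_mem _ (x : Unitization ℤ R) h2
      simpa using this

end

theorem taskW : TaskW := by
  intro R _ hfg hs ⟨x0, y0, hxy⟩
  have hne : J R ≠ ⊥ := by
    intro h
    have h1 : ((x0 * y0 : R) : Unitization ℤ R) ∈ J R := mem_J R _
    rw [h, Submodule.mem_bot] at h1
    rw [← Unitization.inr_zero (R := ℤ)] at h1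
    exact hxy (Unitization.inr_injective h1)
  obtain ⟨M, i1, i2, π, hsim, hsur, hadd, hsmul⟩ :=
    exists_simple (A := Unitization ℤ R) (J R) (J_fg R hfg) hne
  refine ⟨M, i1, i2, hsim, ?_⟩
  have hlin : ∀ (r : R) (x : R), (r : Unitization ℤ R) • π (x : Unitization ℤ R) =
      π ((r * x : R) : Unitization ℤ R) := by
    intro r x
    rw [Unitization.inr_mul]
    exact (hsmul _ _ (mem_J R x)).symm
  have hsur' : ∀ m : M, ∃ x : R, π (x : Unitization ℤ R) = m := by
    intro m
    obtain ⟨_, ⟨x, rfl⟩, h⟩ := hsur m
    exact ⟨x, h⟩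
  have hadd' : ∀ x y : R, π ((x + y : R) : Unitization ℤ R) =
      π (x : Unitization ℤ R) + π (y : Unitization ℤ R) := by
    intro x y
    rw [Unitization.inr_add]
    exact hadd _ (mem_J R x) _ (mem_J R y)
  have hzero' : π ((0 : R) : Unitization ℤ R) = 0 := by
    have := hadd' 0 0
    rw [add_zero] at this
    exact left_eq_add.mp this
  have hneg' : ∀ x : R, π ((-x : R) : Unitization ℤ R) = - π (x : Unitization ℤ R) := by
    intro x
    have := hadd' x (-x)
    rw [add_neg_cancel, hzero'] at this
    exact (neg_eq_of_add_eq_zero_right this.symm).symm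
  -- the annihilator
  let ann : TwoSidedIdeal R := TwoSidedIdeal.mk'
    {r : R | ∀ x : R, π ((r * x : R) : Unitization ℤ R) = 0}
    (by intro x; rw [zero_mul]; exact hzero')
    (by
      intro x y hx hy z
      rw [add_mul, hadd', hx z, hy z, add_zero])
    (by
      intro x hx z
      rw [neg_mul, hneg', hx z, neg_zero])
    (by
      intro x y hy z
      rw [mul_assoc, ← hlin, hy z, smul_zero])
    (by
      intro x y hx z
      rw [mul_assoc]; exact hx _)
  have hmem : ∀ r, r ∈ ann ↔ ∀ x : R, π ((r * x : R) : Unitization ℤ R) = 0 := by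
    intro r
    simp only [ann, TwoSidedIdeal.mem_mk', Set.mem_ofPred_eq]
  have hann : ann = ⊥ := by
    rcases hs ann with h | h
    · exact h
    · exfalso
      have hprod : ∀ x y : R, π ((x * y : R) : Unitization ℤ R) = 0 := by
        intro x y
        have h1 : x ∈ ann := by rw [h]; trivial
        exact (hmem x).mp h1 y
      let P : TwoSidedIdeal R := TwoSidedIdeal.mk'
        {z : R | π (z : Unitization ℤ R) = 0}
        hzero'
        (by
          intro x y hx hy
          simp only [Set.mem_ofPred_eq] at hx hy ⊢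
          rw [hadd', hx, hy, add_zero])
        (by
          intro x hx
          simp only [Set.mem_ofPred_eq] at hx ⊢
          rw [hneg', hx, neg_zero])
        (by
          intro x y _
          exact hprod x y)
        (by
          intro x y _
          exact hprod x y)
      have hP : ∀ z, z ∈ P ↔ π (z : Unitization ℤ R) = 0 := by
        intro z
        simp only [P, TwoSidedIdeal.mem_mk', Set.mem_ofPred_eq]
      rcases hs P with h' | h'
      · have h1 : x0 * y0 ∈ P := (hP _).mpr (hprod _ _)
        rw [h'] at h1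
        exact hxy h1
      · have hn : Nontrivial M := IsSimpleModule.nontrivial (Unitization ℤ R) M
        obtain ⟨m, hm⟩ := exists_ne (0 : M)
        obtain ⟨z, hz⟩ := hsur' m
        have h1 : z ∈ P := by rw [h']; trivial
        exact hm (hz ▸ (hP z).mp h1)
  intro r hr
  by_contra hcon
  push Not at hcon
  have h1 : r ∈ ann := by
    rw [hmem]
    intro x
    rw [← hlin]
    exact hcon _
  rw [hann] at h1
  exact hr h1

end Pool.Agent.H20R3.CRW
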