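import Pool.Agent.H777R4.DM.Stmts2
import Pool.Agent.H428R3.DMKL2

/-! Task FREEN of the project H777-DSN. -/

set_option autoImplicit false

namespace Pool.Agent.H20R3.FreeN

open Pool.Agent.H777R4.DM Pool.Agent.H428R3

attribute [local instance 100] LieRing.ofAssociativeRing

theorem co_sum {α ι : Type} (s : Finset ι) (f : ι → Al α) (l : List α) :
    co (∑ i ∈ s, f i) l = ∑ i ∈ s, co (f i) l := by
  classical
  induction s using Finset.induction_on with
  | empty => rw [Finset.sum_empty, Finset.sum_empty]; exact DMKL2.co_zero l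
  | insert a s ha ih => rw [Finset.sum_insert ha, Finset.sum_insert ha, DMKL2.co_add, ih]

/-- left quotient by a letter -/
theorem exists_lq {α : Type} (P : Al α) (i : α) : ∃ Q : Al α, ∀ w, co Q w = co P (i :: w) := by
  have hinj : Set.InjOn (fun w : FreeMonoid α => FreeMonoid.ofList [i] * w)
      ((fun w : FreeMonoid α => FreeMonoid.ofList [i] * w) ⁻¹' ↑P.coeff.support) := by
    intro u _ v _ h
    exact mul_left_cancel h
  refine ⟨MonoidAlgebra.ofCoeff (P.coeff.comapDomain (fun w : FreeMonoid α =>
    FreeMonoid.ofList [i] * w) hinj), fun w => ?_⟩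
  unfold co
  rw [MonoidAlgebra.coeff_ofCoeff, Finsupp.comapDomain_apply, ← FreeMonoid.ofList_append]
  rfl

theorem decomp {n : ℕ} (P : Al (Fin n)) (Q : Fin n → Al (Fin n))
    (h : ∀ i w, co (Q i) w = co P (i :: w)) :
    P = co P [] • (1 : Al (Fin n)) + ∑ i, wd [i] * Q i := by
  refine DMKL2.co_ext fun l => ?_
  rw [DMKL2.co_add, DMKL2.co_smul, DMKL2.co_one, co_sum]
  have h1 : ∀ i : Fin n, co (wd [i] * Q i) l =
      if 1 ≤ l.length then (if [i] = l.take 1 then co (Q i) (l.drop 1) else 0) else 0 := by
    intro i
    rw [DMKL2.co_mul_hom (DMKL2.lenHom_wd [i]), DMKL2.co_wd]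
    simp
  rw [Finset.sum_congr rfl (fun i _ => h1 i)]
  cases l with
  | nil => simp
  | cons j l =>
    simp [h]

theorem lamN_wd {n : ℕ} (σ : Fin n → AY) (i : Fin n) : lamN σ (wd [i]) = σ i := by
  unfold lamN wd
  rw [MonoidAlgebra.lift_of]
  rfl

theorem taskFreeN : TaskFreeN := by
  intro n r σ hr hσ hli
  rw [injective_iff_map_eq_zero]
  have key : ∀ N : ℕ, ∀ P : Al (Fin n), (∀ l, co P l ≠ 0 → l.length < N) → lamN σ P = 0 →
      P = 0 := by
    intro N
    induction N with
    | zero =>
      intro P hP _
      refine DMKL2.co_ext fun l => ?_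
      by_contra hne
      exact absurd (hP l hne) (by omega)
    | succ N ih =>
      intro P hP hlam
      choose Q hQ using fun i => exists_lq P i
      have hdec := decomp P Q hQ
      have e1 : lamN σ P = co P [] • (1 : AY) + ∑ i, σ i * lamN σ (Q i) := by
        conv_lhs => rw [hdec]
        rw [map_add, map_smul, map_one, map_sum]
        congr 1
        refine Finset.sum_congr rfl fun i _ => ?_
        rw [map_mul, lamN_wd]
      have hc : co P [] = 0 := by
        have h2 : co (lamN σ P) [] = 0 := by rw [hlam]; exact DMKL2.co_zero _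
        rw [e1, DMKL2.co_add, DMKL2.co_smul, DMKL2.co_one, if_pos rfl, co_sum,
          Finset.sum_eq_zero (fun i _ => ?_)] at h2
        · simpa using h2
        · rw [DMKL2.co_mul_hom (hσ i), if_neg (by simp; omega)]
      have e2 : ∑ i, σ i * lamN σ (Q i) = 0 := by
        rw [hlam, hc, zero_smul, zero_add] at e1
        exact e1.symm
      have hb : ∀ i, lamN σ (Q i) = 0 := by
        intro i
        refine DMKL2.co_ext fun z => ?_
        rw [DMKL2.co_zero]
        refine Fintype.linearIndependent_iff.mp hli (fun i => co (lamN σ (Q i)) z) ?_ i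
        refine DMKL2.co_ext fun v => ?_
        rw [DMKL2.co_zero, co_sum]
        by_cases hv : v.length = r
        · have h3 : co (∑ i, σ i * lamN σ (Q i)) (v ++ z) = 0 := by
            rw [e2]; exact DMKL2.co_zero _
          rw [co_sum] at h3
          rw [← h3]
          refine Finset.sum_congr rfl fun i _ => ?_
          rw [DMKL2.co_smul, DMKL2.co_mul_append (hσ i) _ v z hv, mul_comm]
        · refine Finset.sum_eq_zero fun i _ => ?_
          rw [DMKL2.co_smul]
          have : co (σ i) v = 0 := by
            by_contra hne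
            exact hv (hσ i v hne)
          rw [this, mul_zero]
      have z0 : ∀ i, Q i = 0 := fun i => ih (Q i) (fun l hl => by
        rw [hQ] at hl
        have := hP _ hl
        simpa using this) (hb i)
      rw [hdec, hc]
      simp [z0]
  intro P hP
  refine key ((P.coeff.support.sup fun m => (FreeMonoid.toList m).length) + 1) P
    (fun l hl => ?_) hP
  have hmem : FreeMonoid.ofList l ∈ P.coeff.support := Finsupp.mem_support_iff.2 hl
  have := Finset.le_sup (f := fun m : FreeMonoid (Fin n) => (FreeMonoid.toList m).length) hmem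
  simp only [FreeMonoid.toList_ofList] at this
  omega

end Pool.Agent.H20R3.FreeN
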